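import Pool.Agent.Lib.MP_240c17_al.Two.Mod
import Pool.Agent.Lib.MP_240c17_al.Two.Hilbert
import Pool.Agent.Lib.MP_240c17_al.Two.Rfd
import Pool.Agent.Lib.MP_240c17_al.Two.Ann
import Pool.Agent.Lib.MP_240c17_al.Two.Integral
import Pool.Agent.Lib.MP_240c17_al.Two.Closed
import Pool.Agent.Lib.MP_240c17_al.Tor.Frob
import Pool.Agent.Lib.MP_240c17_al.Tor.PolyDiv
import Pool.Agent.Lib.MP_240c17_al.Tor.Torsion
import Pool.Agent.Lib.MP_240c17_al.Tor.Bounded
import Pool.Agent.Lib.MP_240c17_al.Tor.Unbounded
import Pool.Agent.Lib.MP_240c17_al.Tor.Vand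
import Pool.Agent.Lib.MP_240c17_al.Tor.Expand
import Pool.Agent.Lib.MP_240c17_al.Tor.LinExt
import Pool.Agent.Lib.MP_240c17_al.Tor.OpFilt
import Pool.Agent.Lib.MP_240c17_al.Tor.OpPoly
import Pool.Agent.Lib.MP_240c17_al.Tor.MidLin
import Pool.Agent.Lib.MP_240c17_al.Tor.StrLin
import Pool.Agent.Lib.MP_240c17_al.Tor.Comb
import Pool.Agent.Lib.MP_240c17_al.Tor.Nilp
import Pool.Agent.Lib.MP_240c17_al.Tor.Cof
import Pool.Agent.Lib.MP_240c17_al.Tor.LayerGen
import Pool.Agent.Lib.MP_240c17_al.Tor.Noeth
import Pool.Agent.Lib.MP_240c17_al.Tor.Kfg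
import Pool.Agent.Lib.MP_240c17_al.Tor.Xfg
import Pool.Agent.Lib.MP_240c17_al.Tor.X0
import Pool.Agent.Lib.MP_240c17_al.Tor.ClosedT
import Pool.Agent.Lib.MP_240c17_al.Tor.ClosedQ
import Pool.Agent.Lib.MP_240c17_al.Tor.Rel
import Pool.Agent.Lib.MP_240c17_al.Tor.Finish
import Pool.Agent.Lib.MP_240c17_al.Tor.GamWords
import Pool.Agent.Lib.MP_240c17_al.Tor.AlgFin
import Pool.Agent.Lib.MP_240c17_al.Tor.Main
import Pool.Agent.Lib.MP_240c17_al.Tor.Final

/-!
# Nilpotent-by-abelian varieties of Lie algebras over fields of positive characteristic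

Let `V` be a variety of Lie algebras over an infinite field `k` of characteristic `p`, all of whose members
have a nilpotent derived algebra of class at most `c`.

(1) If `V` satisfies a nontrivial identity `∑ c_i [a y^i, b y^(m-i)] = 0` whose coefficients are algebraic over
the prime field, then all relatively finitely presented algebras of `V` are residually finite dimensional.

(2) If `k` is algebraic over its prime field, then all relatively finitely presented algebras of `V` are
residually finite dimensional if and only if `V` satisfies such an identity.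

Method.  The coefficients are roots of unity or zero, so for suitable exponents `P` (a power of `p`) and `N` the maps
`a ↦ a y^P`, `a ↦ a y^(P+N)` are derivations and
`[w(a y^(P+N), z_1, …, z_r), b y^P] = [w(a y^P, z_1, …, z_r), b y^(P+N)]` for all `z_i`, for words of every length `r`. Then there are
linear combinations `T_y` of endomorphisms of the relatively free algebra `F` with
`T_y w(a y^P, z_1, …, z_r) = w(a y^(P+N), z_1, …, z_r)`, `y` in the span of the generators, and an ideal `G` of finite
codimension on which all the `T_y` commute with each other and with the adjoint action. `F'` is a module with finitely generated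
layers over `k[T_y]`, and `[T_y g, y, …, y] = [g, y, …, y]` with `P` and `P + N` letters on `G`; this gives the
closedness of finitely generated ideals in the profinite-dimensional topology.
-/

set_option autoImplicit false

namespace Pool.Agent.Lib.MP_240c17_al.Old.NilpotentByAbelian

open Pool.Agent.Lib.MP_240c17_al Pool.Agent.Lib.MP_240c17_al.Two Pool.Agent.Lib.MP_240c17_al.Tor

universe u

theorem torMain' : TorMainProp.{u} := by
  have hCQ : ClosedQProp.{u} := closedQ (closedT x0)
  exact torMain frob (torsion polyDiv) boundStep unbounded weights momSpan expand linExt opFilt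
    pwPoly opPoly (strLin midLin lagrange) (nilp comb momSpan) cof layerGen
    (noeth (hilbert mod_)) kfg xfg (finish (rfd mod_) (annRel (ann mod_)) (sepFd (rfd mod_)) hCQ)

/-- Let `V` be a variety of Lie algebras over an infinite field `k` of characteristic `p`, whose members are
nilpotent-by-abelian: products of `c + 1` commutators vanish. (1) If `V` satisfies a nontrivial identity
`∑_{i=0}^m c_i [[a,y,…,y], [b,y,…,y]] = 0` (`y` occurs `i` times in the first and `m - i` times in the second
factor) with coefficients algebraic over the prime field, then all relatively finitely presented algebras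
of `V` are residually finite dimensional. (2) If `k` is algebraic over the prime field, then all
relatively finitely presented algebras of `V` are residually finite dimensional if and only if `V`
satisfies a nontrivial identity of this form. -/
theorem result (k : Type u) [Field k] [Infinite k] (p : ℕ) [Fact p.Prime] [Algebra (ZMod p) k]
    (Id : Set (FreeLieAlgebra k ℕ)) (c : ℕ)
    (hN : ∀ (L : Type u) [LieRing L] [LieAlgebra k L], InVariety Id L → ∀ a b : ℕ → L,
      (List.range c).foldl (fun w i => ⁅w, ⁅a (i + 1), b (i + 1)⁆⁆) ⁅a 0, b 0⁆ = 0) :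
    ((∃ (m : ℕ) (co : ℕ → k), (∃ i ≤ m, co i ≠ 0) ∧ (∀ i ≤ m, IsAlgebraic (ZMod p) (co i)) ∧
        ∀ (L : Type u) [LieRing L] [LieAlgebra k L], InVariety Id L → ∀ a b y : L,
          ∑ i ∈ Finset.range (m + 1),
            co i • ⁅(fun l => ⁅l, y⁆)^[i] a, (fun l => ⁅l, y⁆)^[m - i] b⁆ = 0) →
      ∀ (L : Type u) [LieRing L] [LieAlgebra k L], RelFinitelyPresented Id L →
        ResiduallyFiniteDimensional k L) ∧
    (Algebra.IsAlgebraic (ZMod p) k →
      ((∀ (L : Type u) [LieRing L] [LieAlgebra k L], RelFinitelyPresented Id L →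
        ResiduallyFiniteDimensional k L) ↔
      ∃ (m : ℕ) (co : ℕ → k), (∃ i ≤ m, co i ≠ 0) ∧
        ∀ (L : Type u) [LieRing L] [LieAlgebra k L], InVariety Id L → ∀ a b y : L,
          ∑ i ∈ Finset.range (m + 1),
            co i • ⁅(fun l => ⁅l, y⁆)^[i] a, (fun l => ⁅l, y⁆)^[m - i] b⁆ = 0)) := by
  haveI : CharP k p := charP_of_injective_algebraMap (algebraMap (ZMod p) k).injective p
  have key : ∀ (m : ℕ) (co : ℕ → k), (∃ i ≤ m, co i ≠ 0) →
      (∀ i ≤ m, IsAlgebraic (ZMod p) (co i)) →
      (∀ (L : Type u) [LieRing L] [LieAlgebra k L], InVariety Id L → ∀ a b y : L,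
          ∑ i ∈ Finset.range (m + 1),
            co i • ⁅(fun l => ⁅l, y⁆)^[i] a, (fun l => ⁅l, y⁆)^[m - i] b⁆ = 0) →
      ∀ (L : Type u) [LieRing L] [LieAlgebra k L], RelFinitelyPresented Id L →
        ResiduallyFiniteDimensional k L := by
    intro m co hne halg hI L _ _ hL
    obtain ⟨r, hr, hco⟩ := algFin k p m co halg
    exact tor_suff torMain' gamWords p Id c hN m r co hr hco hne hI L hL
  refine ⟨?_, ?_⟩
  · rintro ⟨m, co, hne, halg, hI⟩ L _ _ hL
    exact key m co hne halg hI L hL
  · intro hk
    constructor
    · exact Nec1.necessary k Id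
    · rintro ⟨m, co, hne, hI⟩ L _ _ hL
      exact key m co hne (fun i _ => Algebra.IsAlgebraic.isAlgebraic (co i)) hI L hL

end Pool.Agent.Lib.MP_240c17_al.Old.NilpotentByAbelian
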